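import Pool.Agent.helper81.CW.Spec1

/-! # Project cw, module V1: lower bound for the volume of the unit ball -/

open MeasureTheory Set
open scoped ENNReal

namespace Pool.Agent.helper81.CW

theorem V1_e_le (m : ℕ) (hm : 1 ≤ m) : Real.exp 1 * (m : ℝ) ^ (m + 1) ≤ ((m : ℝ) + 1) ^ (m + 1) := by
  have hm0 : (0 : ℝ) < m := by exact_mod_cast hm
  have hx : (0 : ℝ) < ((m : ℝ) + 1) / m := by positivity
  have h1 : (1 : ℝ) ≤ ((m + 1 : ℕ) : ℝ) * Real.log (((m : ℝ) + 1) / m) := by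
    have h2 := Real.one_sub_inv_le_log_of_pos hx
    have h3 : 1 - (((m : ℝ) + 1) / m)⁻¹ = 1 / ((m : ℝ) + 1) := by
      field_simp
      ring
    rw [h3] at h2
    have h4 : ((m + 1 : ℕ) : ℝ) * (1 / ((m : ℝ) + 1)) = 1 := by
      push_cast
      field_simp
    calc (1 : ℝ) = ((m + 1 : ℕ) : ℝ) * (1 / ((m : ℝ) + 1)) := h4.symm
      _ ≤ _ := by
        apply mul_le_mul_of_nonneg_left h2
        positivity
  have h5 : Real.exp 1 ≤ (((m : ℝ) + 1) / m) ^ (m + 1) := by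
    calc Real.exp 1 ≤ Real.exp (((m + 1 : ℕ) : ℝ) * Real.log (((m : ℝ) + 1) / m)) :=
          Real.exp_le_exp.mpr h1
      _ = (((m : ℝ) + 1) / m) ^ (m + 1) := by
          rw [Real.exp_nat_mul, Real.exp_log hx]
  calc Real.exp 1 * (m : ℝ) ^ (m + 1) ≤ (((m : ℝ) + 1) / m) ^ (m + 1) * (m : ℝ) ^ (m + 1) := by
        apply mul_le_mul_of_nonneg_right h5
        positivity
    _ = ((m : ℝ) + 1) ^ (m + 1) := by
        rw [← mul_pow]
        congr 1
        field_simp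

theorem V1_fact1 (m : ℕ) (hm : 1 ≤ m) :
    (m.factorial : ℝ) * Real.exp 1 ^ m ≤ Real.exp 1 * (m : ℝ) ^ (m + 1) := by
  induction m, hm using Nat.le_induction with
  | base => simp
  | succ m hm ih =>
    have h1 := V1_e_le m hm
    have he : 0 < Real.exp 1 := Real.exp_pos 1
    have hm0 : (0 : ℝ) ≤ m := by positivity
    rw [Nat.factorial_succ]
    push_cast
    calc ((m : ℝ) + 1) * (m.factorial : ℝ) * Real.exp 1 ^ (m + 1)
        = ((m : ℝ) + 1) * Real.exp 1 * ((m.factorial : ℝ) * Real.exp 1 ^ m) := by ring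
      _ ≤ ((m : ℝ) + 1) * Real.exp 1 * (Real.exp 1 * (m : ℝ) ^ (m + 1)) := by
          apply mul_le_mul_of_nonneg_left ih
          positivity
      _ ≤ ((m : ℝ) + 1) * Real.exp 1 * ((m : ℝ) + 1) ^ (m + 1) := by
          apply mul_le_mul_of_nonneg_left h1
          positivity
      _ = Real.exp 1 * ((m : ℝ) + 1) ^ (m + 1 + 1) := by ring

theorem V1_fact (m : ℕ) :
    (m.factorial : ℝ) * Real.exp 1 ^ m ≤ Real.exp 1 * ((m : ℝ) + 1) * (m : ℝ) ^ m := by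
  rcases Nat.eq_zero_or_pos m with h | h
  · subst h
    simp
  · refine (V1_fact1 m h).trans ?_
    rw [pow_succ]
    have h1 : (0 : ℝ) ≤ Real.exp 1 * (m : ℝ) ^ m := by positivity
    nlinarith

theorem V1_gamma (m : ℕ) :
    Real.Gamma ((m : ℝ) / 2 + 1) ^ 2 * 2 ^ m ≤ Real.sqrt Real.pi * ((m : ℝ) + 1) * m.factorial := by
  set x : ℝ := (m : ℝ) / 2 with hx
  have hx0 : 0 ≤ x := by positivity
  have h1 : Real.Gamma (x + 1 / 2) * Real.Gamma (x + 1) =
      m.factorial * (2 : ℝ) ^ (-(m : ℝ)) * Real.sqrt Real.pi := by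
    have h := Real.Gamma_mul_Gamma_add_half (x + 1 / 2)
    have e1 : x + 1 / 2 + 1 / 2 = x + 1 := by ring
    have e2 : 2 * (x + 1 / 2) = (m : ℝ) + 1 := by rw [hx]; ring
    have e3 : 1 - 2 * (x + 1 / 2) = -(m : ℝ) := by rw [hx]; ring
    rw [e1, e3, e2, Real.Gamma_nat_eq_factorial] at h
    exact h
  have hG1 : 0 < Real.Gamma (x + 1 / 2) := Real.Gamma_pos_of_pos (by positivity)
  have hG2 : 0 < Real.Gamma (x + 1) := Real.Gamma_pos_of_pos (by positivity)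
  have h2 : Real.Gamma (x + 1) ≤ ((m : ℝ) + 1) * Real.Gamma (x + 1 / 2) := by
    have hc := Real.Gamma_mul_add_mul_le_rpow_Gamma_mul_rpow_Gamma
      (s := x + 1 / 2) (t := x + 1 / 2 + 1) (a := 1 / 2) (b := 1 / 2)
      (by positivity) (by positivity) (by norm_num) (by norm_num) (by norm_num)
    have e1 : (1 / 2 : ℝ) * (x + 1 / 2) + 1 / 2 * (x + 1 / 2 + 1) = x + 1 := by ring
    have e2 : Real.Gamma (x + 1 / 2 + 1) = (x + 1 / 2) * Real.Gamma (x + 1 / 2) :=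
      Real.Gamma_add_one (by positivity)
    rw [e1, e2] at hc
    have h3 : Real.Gamma (x + 1 / 2) ^ (1 / 2 : ℝ) * ((x + 1 / 2) * Real.Gamma (x + 1 / 2)) ^ (1 / 2 : ℝ)
        = Real.Gamma (x + 1 / 2) * (x + 1 / 2) ^ (1 / 2 : ℝ) := by
      rw [Real.mul_rpow (by positivity) hG1.le]
      have : Real.Gamma (x + 1 / 2) ^ (1 / 2 : ℝ) * Real.Gamma (x + 1 / 2) ^ (1 / 2 : ℝ) =
          Real.Gamma (x + 1 / 2) := by
        rw [← Real.rpow_add hG1]; norm_num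
      calc _ = (Real.Gamma (x + 1 / 2) ^ (1 / 2 : ℝ) * Real.Gamma (x + 1 / 2) ^ (1 / 2 : ℝ)) *
            (x + 1 / 2) ^ (1 / 2 : ℝ) := by ring
        _ = _ := by rw [this]
    rw [h3] at hc
    have h4 : (x + 1 / 2) ^ (1 / 2 : ℝ) ≤ (m : ℝ) + 1 := by
      rw [← Real.sqrt_eq_rpow]
      rw [Real.sqrt_le_left (by positivity)]
      have : x = (m : ℝ) / 2 := hx
      have hm0 : (0 : ℝ) ≤ m := by positivity
      nlinarith
    calc Real.Gamma (x + 1) ≤ Real.Gamma (x + 1 / 2) * (x + 1 / 2) ^ (1 / 2 : ℝ) := hc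
      _ ≤ Real.Gamma (x + 1 / 2) * ((m : ℝ) + 1) := by
          apply mul_le_mul_of_nonneg_left h4 hG1.le
      _ = _ := by ring
  have h5 : (2 : ℝ) ^ (-(m : ℝ)) * 2 ^ m = 1 := by
    rw [Real.rpow_neg (by norm_num), Real.rpow_natCast]
    field_simp
  calc Real.Gamma (x + 1) ^ 2 * 2 ^ m
      = Real.Gamma (x + 1) * Real.Gamma (x + 1) * 2 ^ m := by ring
    _ ≤ (((m : ℝ) + 1) * Real.Gamma (x + 1 / 2)) * Real.Gamma (x + 1) * 2 ^ m := by
        apply mul_le_mul_of_nonneg_right _ (by positivity)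
        exact mul_le_mul_of_nonneg_right h2 hG2.le
    _ = ((m : ℝ) + 1) * (Real.Gamma (x + 1 / 2) * Real.Gamma (x + 1)) * 2 ^ m := by ring
    _ = ((m : ℝ) + 1) * (m.factorial * (2 : ℝ) ^ (-(m : ℝ)) * Real.sqrt Real.pi) * 2 ^ m := by
        rw [h1]
    _ = Real.sqrt Real.pi * ((m : ℝ) + 1) * m.factorial * ((2 : ℝ) ^ (-(m : ℝ)) * 2 ^ m) := by ring
    _ = Real.sqrt Real.pi * ((m : ℝ) + 1) * m.factorial := by rw [h5, mul_one]

theorem V1 : V1_stmt := by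
  refine ⟨1 / 3, by norm_num, fun m => ?_⟩
  have hG : 0 < Real.Gamma ((m : ℝ) / 2 + 1) := Real.Gamma_pos_of_pos (by positivity)
  unfold kap
  rw [le_div_iff₀ hG]
  set G := Real.Gamma ((m : ℝ) / 2 + 1) with hGdef
  set y : ℝ := (2 * Real.pi * Real.exp 1) ^ ((m : ℝ) / 2) with hy
  set z : ℝ := (m : ℝ) ^ ((m : ℝ) / 2) with hz
  have hpi : 0 < Real.pi := Real.pi_pos
  have hy0 : 0 < y := by positivity
  have hz0 : 0 < z := by
    rw [hz]
    rcases Nat.eq_zero_or_pos m with h | h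
    · subst h; simp
    · have : (0 : ℝ) < m := by exact_mod_cast h
      positivity
  have hy2 : y ^ 2 = (2 * Real.pi * Real.exp 1) ^ m := by
    rw [hy, ← Real.rpow_natCast, ← Real.rpow_mul (by positivity)]
    rw [show (m : ℝ) / 2 * ((2 : ℕ) : ℝ) = (m : ℝ) by push_cast; ring, Real.rpow_natCast]
  have hz2 : z ^ 2 = (m : ℝ) ^ m := by
    rw [hz, ← Real.rpow_natCast, ← Real.rpow_mul (by positivity)]
    rw [show (m : ℝ) / 2 * ((2 : ℕ) : ℝ) = (m : ℝ) by push_cast; ring, Real.rpow_natCast]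
  have hs2 : (Real.sqrt Real.pi ^ m) ^ 2 = Real.pi ^ m := by
    rw [← pow_mul, mul_comm, pow_mul, Real.sq_sqrt hpi.le]
  have key : G ^ 2 * (2 * Real.exp 1) ^ m ≤
      Real.sqrt Real.pi * Real.exp 1 * ((m : ℝ) + 1) ^ 2 * (m : ℝ) ^ m := by
    have h1 := V1_gamma m
    have h2 := V1_fact m
    rw [← hGdef] at h1
    calc G ^ 2 * (2 * Real.exp 1) ^ m = (G ^ 2 * 2 ^ m) * Real.exp 1 ^ m := by rw [mul_pow]; ring
      _ ≤ (Real.sqrt Real.pi * ((m : ℝ) + 1) * m.factorial) * Real.exp 1 ^ m := by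
          apply mul_le_mul_of_nonneg_right h1 (by positivity)
      _ = Real.sqrt Real.pi * ((m : ℝ) + 1) * (m.factorial * Real.exp 1 ^ m) := by ring
      _ ≤ Real.sqrt Real.pi * ((m : ℝ) + 1) * (Real.exp 1 * ((m : ℝ) + 1) * (m : ℝ) ^ m) := by
          apply mul_le_mul_of_nonneg_left h2 (by positivity)
      _ = _ := by ring
  have hK : Real.sqrt Real.pi * Real.exp 1 ≤ 9 := by
    have h1 : Real.sqrt Real.pi ≤ 2 := by
      rw [Real.sqrt_le_left (by norm_num)]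
      have := Real.pi_le_four
      norm_num
      linarith
    have h2 : Real.exp 1 ≤ 3 := by
      have := Real.exp_one_lt_d9
      linarith
    have h3 : 0 ≤ Real.sqrt Real.pi := Real.sqrt_nonneg _
    have h4 : 0 < Real.exp 1 := Real.exp_pos 1
    nlinarith
  have hm1 : (1 : ℝ) ≤ (m : ℝ) + 1 := by
    have : (0 : ℝ) ≤ m := by positivity
    linarith
  refine (sq_le_sq₀ (by positivity) (by positivity)).mp ?_
  rw [hs2]
  have e1 : (1 / 3 / ((m : ℝ) + 1) ^ 2 * y / z * G) ^ 2 =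
      1 / 9 / ((m : ℝ) + 1) ^ 4 * (y ^ 2 / z ^ 2) * G ^ 2 := by
    field_simp
    ring
  rw [e1, hy2, hz2]
  have hmm : 0 < (m : ℝ) ^ m := by rw [← hz2]; positivity
  have e2 : (2 * Real.pi * Real.exp 1) ^ m = Real.pi ^ m * (2 * Real.exp 1) ^ m := by
    rw [← mul_pow]; ring
  rw [e2]
  calc 1 / 9 / ((m : ℝ) + 1) ^ 4 * (Real.pi ^ m * (2 * Real.exp 1) ^ m / (m : ℝ) ^ m) * G ^ 2
      = 1 / 9 / ((m : ℝ) + 1) ^ 4 * Real.pi ^ m / (m : ℝ) ^ m * (G ^ 2 * (2 * Real.exp 1) ^ m) := by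
        ring
    _ ≤ 1 / 9 / ((m : ℝ) + 1) ^ 4 * Real.pi ^ m / (m : ℝ) ^ m *
        (Real.sqrt Real.pi * Real.exp 1 * ((m : ℝ) + 1) ^ 2 * (m : ℝ) ^ m) := by
        apply mul_le_mul_of_nonneg_left key (by positivity)
    _ = Real.pi ^ m * ((Real.sqrt Real.pi * Real.exp 1) / 9 / ((m : ℝ) + 1) ^ 2) := by
        field_simp
    _ ≤ Real.pi ^ m * 1 := by
        apply mul_le_mul_of_nonneg_left _ (by positivity)
        rw [div_le_one (by positivity)]
        have : (1 : ℝ) ≤ ((m : ℝ) + 1) ^ 2 := one_le_pow₀ hm1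
        linarith
    _ = Real.pi ^ m := mul_one _

end Pool.Agent.helper81.CW
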